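import Mathlib
import Pool.Agent.MP_c98b3a_gt.kl.All3

/-!
An entropy gap: in all large dimensions `m` there is `ε > 0` such that a closed quotient of a
domain `({w > 0}, w^{-2} g_round)` of `S^m` by Moebius transformations with entropy larger than
`log Θ_m - ε` is conformally diffeomorphic to the round sphere.
-/

open scoped Manifold ContDiff
open Pool.Agent.MP_c98b3a_gt Pool.Agent.MP_c98b3a_gt.KL

namespace Pool.Agent.Results.MP_c98b3a_gt.KleinianGap

theorem result : ∃ m0 : ℕ, ∀ m ≥ m0, ∃ ε > (0 : ℝ), ∀ (M : Type) [TopologicalSpace M] [T2Space M]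
    [CompactSpace M] [ChartedSpace (Euc (Fin m)) M] [IsManifold 𝓘(ℝ, Euc (Fin m)) ∞ M]
    [MeasurableSpace M] [BorelSpace M] (g : Metrics 𝓘(ℝ, Euc (Fin m)) M) (w : Sphere m → ℝ)
    (f : Sphere m → M), Kleinian g incl w f → (∀ y, ∃ x, 0 < w x ∧ f x = y) →
    (∀ x x', 0 < w x → 0 < w x' → x ≠ x' → f x = f x' → ∃ γ, Deck incl w f γ ∧ γ x = x') →
    ((Real.log (theta m) - ε : ℝ) : EReal) < entNu g → (∀ x, 0 < w x) ∧
      ∃ Φ : Diffeomorph 𝓘(ℝ, Euc (Fin m)) 𝓘(ℝ, Euc (Fin m)) (Sphere m) M ∞, ∀ x, Φ x = f x :=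
  fin3 (cmp2 gb) tow2_all bal3_all (inv uni) (dif lv_all lc ent_all)

end Pool.Agent.Results.MP_c98b3a_gt.KleinianGap
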