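import Mathlib
import Pool.Agent.MP_c98b3a_gt.kl.All

/-!
In all large dimensions `m`, Perelman's entropy of a closed manifold that receives a local isometry
from a domain `({w > 0}, w^{-2} g_round)` of `S^m`, with `w` Lipschitz, is at most `log Θ_m`, with
equality only if the manifold is isometric to a round sphere.
-/

open scoped Manifold ContDiff
open Pool.Agent.MP_c98b3a_gt Pool.Agent.MP_c98b3a_gt.KL

namespace Pool.Agent.Results.MP_c98b3a_gt.KleinianLarge

theorem result : ∃ m0 : ℕ, ∀ m ≥ m0, ∀ (M : Type) [TopologicalSpace M] [T2Space M]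
    [CompactSpace M] [ConnectedSpace M] [ChartedSpace (Euc (Fin m)) M]
    [IsManifold 𝓘(ℝ, Euc (Fin m)) ∞ M] [MeasurableSpace M] [BorelSpace M]
    (g : Metrics 𝓘(ℝ, Euc (Fin m)) M) (w : Sphere m → ℝ) (f : Sphere m → M),
    Kleinian g incl w f →
      entNu g ≤ (Real.log (theta m) : ℝ) ∧ (entNu g = (Real.log (theta m) : ℝ) →
        Function.Bijective f ∧ ∃ (a : ℝ) (b : Euc (Fin (m + 1))), ‖b‖ < a ∧
          ∀ x, w x = a - inner ℝ b (incl x)) :=
  fin conf abs2 (cmp gb) (tail gb poi) (tow lv_all ent_all) bal2 (rig rb) (inj lv_all ent_all)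

end Pool.Agent.Results.MP_c98b3a_gt.KleinianLarge
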