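import Mathlib
import Pool.Agent.MP_c98b3a_gt.Final

/-!
Perelman's entropy of a toric contact metric `a² η² + g_T` on a closed `(2n+1)`-manifold is at
most `log Θ_{2n+1}`, the entropy of the round `(2n+1)`-sphere.
-/

open scoped Manifold ContDiff
open Pool.Agent.MP_c98b3a_gt

namespace Pool.Agent.Results.MP_c98b3a_gt.ToricContact

universe u

theorem result (n : ℕ) (hn : 0 < n) (M : Type u) [TopologicalSpace M] [T2Space M] [CompactSpace M]
    [ChartedSpace (Euc (Fin n ⊕ (Fin n ⊕ Unit))) M]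
    [IsManifold 𝓘(ℝ, Euc (Fin n ⊕ (Fin n ⊕ Unit))) ∞ M] [MeasurableSpace M] [BorelSpace M]
    (g : Metrics 𝓘(ℝ, Euc (Fin n ⊕ (Fin n ⊕ Unit))) M)
    (B : Matrix (Fin n ⊕ Unit) (Fin n ⊕ Unit) ℝ) (hB : B.det ≠ 0)
    (d : ℕ) (v : Fin d → Fin n ⊕ Unit → ℤ) (u : Fin d → Fin n → ℝ) (c : Fin d → ℝ)
    (hu : ∀ k i, u k i = ∑ a, (v k a : ℝ) * B a (Sum.inl i))
    (hc : ∀ k, c k = ∑ a, (v k a : ℝ) * B a (Sum.inr ()))
    (H : Euc (Fin n) → Matrix (Fin n) (Fin n) ℝ) (hH : Labelled u c H)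
    (a : Euc (Fin n) → ℝ) (ha : ContDiff ℝ ∞ a) (ha0 : ∀ x, 0 < a x)
    (hg : ActionAngle g (poly u c) H (contactK B a H)) :
    entNu g ≤ (Real.log (theta (2 * n + 1)) : ℝ) := by
  have : Nonempty (Fin n) := ⟨⟨0, hn⟩⟩
  simpa only [Fintype.card_fin] using
    nu_le_contact g hB (funext fun k => funext (hu k)) (funext hc) hH ha ha0 hg

end Pool.Agent.Results.MP_c98b3a_gt.ToricContact
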