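import Pool.Agent.MP_c98b3a_gt.yam.Main

/-!
On a closed Riemannian manifold of dimension `m ≥ 3`, Perelman's entropy is at most
`(m/2) log (Y(M, [g]) / Y(S^m))`, where `Y` is the Yamabe constant of the conformal class.
-/

open scoped Manifold ContDiff
open Pool.Agent.MP_c98b3a_gt Pool.Agent.MP_c98b3a_gt.Yam

namespace Pool.Agent.Results.MP_c98b3a_gt.YamabeBound

universe u

theorem result (m : ℕ) (hm : 3 ≤ m) (M : Type u) [TopologicalSpace M] [T2Space M] [CompactSpace M]
    [Nonempty M] [ChartedSpace (Euc (Fin m)) M] [IsManifold 𝓘(ℝ, Euc (Fin m)) ∞ M]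
    [MeasurableSpace M] [BorelSpace M] (g : Metrics 𝓘(ℝ, Euc (Fin m)) M)
    (a : ℝ) (ha : (a : EReal) ≤ entNu g) :
    ((yamS m * Real.exp (2 * a / m) : ℝ) : EReal) ≤ yamabe g := by
  simpa only [Fintype.card_fin] using yam_bound g (by rwa [Fintype.card_fin]) ha

end Pool.Agent.Results.MP_c98b3a_gt.YamabeBound
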